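import Pool.Agent.W423.NT.Defs
import Pool.Agent.W853.NX.Mod

/-!
# The ideal of the variety `S_k = m_k (X_0 + ∑ X_j + η)`, vanishing only for `n ≥ L`

Adapted from `Pool.Agent.W853.NX.Mod` (helper853).
-/

set_option autoImplicit false

namespace Pool.Agent.W21.NT

open MvPolynomial
open Pool.Agent.W423.MG
open Pool.Agent.W423.NC
open Pool.Agent.W423.NX
open Pool.Agent.W853.NX

variable {r P : ℕ}

/-- the value of the substitution at a natural point with large coordinates -/
lemma eval_zeroL (g : Fin r → Fin (P+1)) (rp : Fin (P+1) → Fin r) (hrp : ∀ k, g (rp k) = k)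
    (m : Fin (P+1) → ℕ) (hm : ∀ k, 1 ≤ m k) (η : ℝ) (L : ℕ) (G : MvPolynomial (Fin (r+1)) ℂ)
    (hG : ∀ (n : ℕ) (u : Fin r → ℕ), L ≤ n → (∀ k, gs g u k = m k * n) →
      eval (Fin.cons ((n : ℂ) - (η : ℂ) - ∑ j, (u j : ℂ)) (fun j => (u j : ℂ)) : Fin (r+1) → ℂ)
        G = 0) (x : Fin (r+1) → ℕ) (hx : L ≤ x 0) :
    eval (fun i => (x i : ℂ)) (Pool.Agent.W853.NX.Psi g rp m η G) = 0 := by
  set n : ℕ := ∑ i, x i with hn
  set w : Fin r → ℕ := fun j => ∑ i, (if g i = g j ∧ i ≠ j then x i.succ else 0) with hw
  set u : Fin r → ℕ := fun j => if j = rp (g j) then m (g j) * n - w j else x j.succ with hu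
  have hLn : L ≤ n := by
    refine hx.trans ?_
    rw [hn]
    exact Finset.single_le_sum (f := x) (fun i _ => Nat.zero_le _) (Finset.mem_univ 0)
  have hle : ∀ j, w j ≤ m (g j) * n := by
    intro j
    have h1 : w j ≤ ∑ i : Fin r, x i.succ := by
      refine Finset.sum_le_sum fun i _ => ?_
      split_ifs
      · exact le_rfl
      · exact Nat.zero_le _
    have h2 : ∑ i : Fin r, x i.succ ≤ n := by
      rw [hn, Fin.sum_univ_succ]
      omega
    calc w j ≤ n := h1.trans h2
      _ = 1 * n := (one_mul _).symm
      _ ≤ m (g j) * n := Nat.mul_le_mul_right _ (hm _)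
  have hgs : ∀ k, gs g u k = m k * n := by
    intro k
    have hsplit : gs g u k = u (rp k) + ∑ i, (if g i = g (rp k) ∧ i ≠ rp k then u i else 0) := by
      unfold gs
      have h : ∀ i : Fin r, (if g i = k then u i else 0) =
          (if i = rp k then u (rp k) else 0) + (if g i = g (rp k) ∧ i ≠ rp k then u i else 0) := by
        intro i
        by_cases h1 : i = rp k
        · subst h1
          simp [hrp]
        · by_cases h2 : g i = k
          · simp [h1, h2, hrp]
          · simp [h1, h2, hrp]
      rw [Finset.sum_congr rfl fun i _ => h i, Finset.sum_add_distrib]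
      congr 1
      simp
    have h1 : ∑ i, (if g i = g (rp k) ∧ i ≠ rp k then u i else 0) = w (rp k) := by
      refine Finset.sum_congr rfl fun i _ => ?_
      by_cases h2 : g i = g (rp k) ∧ i ≠ rp k
      · rw [if_pos h2, if_pos h2, hu]
        have h3 : i ≠ rp (g i) := by
          rw [h2.1, hrp]
          exact h2.2
        simp only [if_neg h3]
      · rw [if_neg h2, if_neg h2]
    have h4 : u (rp k) = m k * n - w (rp k) := by
      have h5 : rp k = rp (g (rp k)) := by rw [hrp]
      rw [hu]
      simp only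
      rw [if_pos h5, hrp]
    have h6 := hle (rp k)
    rw [hrp] at h6
    rw [hsplit, h1, h4]
    omega
  have hfin := hG n u hLn hgs
  have hsum : ∑ j, (u j : ℂ) = (∑ k, ((m k : ℕ) : ℂ)) * n := by
    have h1 := sum_gs g (fun j => (u j : ℂ))
    rw [← h1, Finset.sum_mul]
    refine Finset.sum_congr rfl fun k _ => ?_
    have h2 : gs g (fun j => (u j : ℂ)) k = ((gs g u k : ℕ) : ℂ) := by
      unfold gs
      push_cast
      refine Finset.sum_congr rfl fun j _ => ?_
      split_ifs <;> simp
    rw [h2, hgs]
    push_cast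
    ring
  have hSg : eval (fun i => (x i : ℂ)) (Sg r) = (n : ℂ) := by
    unfold Sg
    rw [map_sum, hn]
    push_cast
    exact Finset.sum_congr rfl fun i _ => eval_X _
  unfold Pool.Agent.W853.NX.Psi
  rw [eval_aev]
  rw [← hfin]
  refine congrArg (fun f => eval f G) ?_
  funext i
  refine Fin.cases ?_ (fun j => ?_) i
  · rw [Fin.cons_zero, Fin.cons_zero, hsum]
    rw [map_sub, map_sub, map_mul, hSg, map_sum]
    simp only [eval_C]
  · rw [Fin.cons_succ, Fin.cons_succ]
    unfold sv
    by_cases hj : j = rp (g j)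
    · rw [if_pos hj, map_sub, map_mul, hSg, eval_C, map_sum]
      have h1 : u j = m (g j) * n - w j := by
        rw [hu]
        simp only
        rw [if_pos hj]
      have h2 : ∑ i, eval (fun i => (x i : ℂ)) (if g i = g j ∧ i ≠ j then X i.succ else 0)
          = (w j : ℂ) := by
        rw [hw]
        push_cast
        refine Finset.sum_congr rfl fun i _ => ?_
        split_ifs
        · exact eval_X _
        · exact map_zero _
      rw [h2, h1, Nat.cast_sub (hle j)]
      push_cast
      ring
    · rw [if_neg hj, eval_X]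
      have h1 : u j = x j.succ := by
        rw [hu]
        simp only
        rw [if_neg hj]
      rw [h1]

/-- `TaskModL` of project NT. -/
theorem taskModL : Pool.Agent.W423.NT.TaskModL := by
  intro r P g m η L G hg hm hG
  choose rp hrp using hg
  set I := Ideal.span (Set.range fun k => rn (sgm g k) - C ((m k : ℕ) : ℂ) *
    (Sg r + C (η : ℂ))) with hI
  have h0 : Pool.Agent.W853.NX.Psi g rp m η G = 0 := by
    refine MvPolynomial.funext_set (fun _ => (Nat.cast : ℕ → ℂ) '' Set.Ici L)
      (fun _ => Set.Infinite.image (Nat.cast_injective.injOn) (Set.Ici_infinite L)) ?_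
    intro x hx
    choose y hy using fun i => hx i (Set.mem_univ i)
    have hxy : x = fun i => (y i : ℂ) := by
      funext i
      exact (hy i).2.symm
    rw [hxy, map_zero]
    exact eval_zeroL g rp hrp m hm η L G hG y (hy 0).1
  have h1 := quot g rp m η I (fun k => Ideal.subset_span ⟨k, rfl⟩) G
  rw [h0, map_zero, map_zero] at h1
  exact Ideal.Quotient.eq_zero_iff_mem.mp h1

end Pool.Agent.W21.NT
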